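import Mathlib
import Pool.Agent.T9h25.GS.Embed

/-!
# Regular theta-closed st-languages that are not generalized synchronization languages

A disproof of the inclusion of the family of regular theta-closed st-languages in the family of generalized
synchronization languages (a question of Salomaa and Yu, 1997), over every finite alphabet with at least two
actions; over one action the inclusion holds (there closure under theta is no condition).

The language for two actions `a`, `b` is `LL` (`Pool.Agent.T9h25.GS.Words`): all st-words in which no `a`-event of
even index overlaps a `b`-event of even index. It is regular and theta-closed.

Idea of the proof that no expression has the language `LL` (`Pool.Agent.T9h25.GS.Core2` to `Core4`). Write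
`x = a_t a_s`, `y = b_t b_s` and `B = x^N y y x^N` with `N = n!`. By induction on the expression `e` one shows: for
all large `n`, `k`, `k'` and ALL words `X`, `Y`, if `X B^N Y` is in `L(e)`, then so is `X B^(k N) D B^(k' N - 1) Y`,
where `D` is a fixed word (depending on `n` only) in which one `a`-event overlaps one `b`-event and all other events
are sequential. For even `N` and `X = a_s b_s`, `Y = a_t b_t` the first word is in `LL` and the second one is not,
since in `D` the overlapping events have even indices. The region `B^N` cannot be cut by a product or an iteration,
for at every moment an action is active. For a shuffle the letters of `B^N` are distributed over two classes; by the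
pigeonhole principle (finitely many left quotients) a part `B^l` can be repeated in both classes independently. If
one class has no letter in this part, the induction hypothesis for the other class is used. If both classes have
letters there, one of them can be parked in a place where it can make any number of additional `a`-events, while the
other one makes all `b`-events of `D`; the needed words of the classes arise from repetitions by the rules of theta.
-/

set_option autoImplicit false

namespace Pool.Agent.Results.MP_5f7e94_lc.InclusionFails

open Pool.Agent.T9h25.GS

theorem result :
    -- at least two actions: the inclusion fails
    (∀ (α : Type) [Finite α] [DecidableEq α] [Nontrivial α],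
      ∃ L : Language (Ltr α), L.IsRegular ∧ (∀ w ∈ L, IsST w) ∧ ThetaClosed L ∧
        ∀ e : GExpr α, e.lang ≠ L) ∧
    -- one action: it holds
    (∀ (α : Type) [DecidableEq α] [Nonempty α] [Subsingleton α] (L : Language (Ltr α)),
      L.IsRegular → (∀ w ∈ L, IsST w) → ∃ e : GExpr α, e.lang = L) :=
  ⟨many, one⟩

end Pool.Agent.Results.MP_5f7e94_lc.InclusionFails
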